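import Pool.Agent.ASG.Defs
import Pool.Agent.ASG.KSeq
import Pool.Agent.ASG.CpCt

set_option autoImplicit false

/-!
# Sequences converging to `1` in countable `k_ω` and metrizable groups (project CSD, MP_a9e3cf_lc)

Countable Hausdorff `k_ω` spaces are sequential, and in countable `k_ω` or metrizable groups the set of the sequences
converging to `1` is analytic (even Borel) in the space of all sequences of points of the discrete set `G`.
-/

namespace Pool.Agent.CSD

open Set Topology Filter MeasureTheory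
open Pool.Agent.ASG (IsKOmega k_seq cp_ct)

theorem kom_seq {X : Type} [TopologicalSpace X] [Countable X] [T2Space X] (h : IsKOmega X) :
    SequentialSpace X := by
  obtain ⟨K, hK, -, hdet, -⟩ := k_seq h
  refine ⟨fun A hA => hdet A fun n => ?_⟩
  obtain ⟨O, hO1, hO2⟩ := cp_ct (hK n)
  have hb : TopologicalSpace.IsTopologicalBasis
      (range fun k => (Subtype.val ⁻¹' O k : Set (K n))) := by
    apply TopologicalSpace.isTopologicalBasis_of_isOpen_of_nhds
    · rintro _ ⟨k, rfl⟩
      exact (hO1 k).preimage continuous_subtype_val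
    · intro a u ha hu
      obtain ⟨A', hA', rfl⟩ := isOpen_induced_iff.1 hu
      obtain ⟨k, hk1, hk2⟩ := hO2 A' hA' a ⟨ha, a.2⟩
      exact ⟨_, ⟨k, rfl⟩, hk1, fun b hb => hk2 ⟨hb, b.2⟩⟩
  have hs : SecondCountableTopology (K n) := hb.secondCountableTopology (countable_range _)
  have hc : IsClosed (Subtype.val ⁻¹' A : Set (K n)) := by
    apply IsSeqClosed.isClosed
    intro x a hx hxa
    exact hA (fun i => hx i) ((continuous_subtype_val.tendsto a).comp hxa)
  have h1 := (hK n).isClosed.isClosedEmbedding_subtypeVal.isClosedMap _ hc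
  rwa [Subtype.image_preimage_coe, inter_comm] at h1

section

variable {D : Type*} [TopologicalSpace D] [DiscreteTopology D] [Countable D]

theorem an_all (K : Set D) : AnalyticSet {a : ℕ → D | ∀ n, a n ∈ K} := by
  have pX : PolishSpace (ℕ → D) := { }
  apply IsClosed.analyticSet
  have h : {a : ℕ → D | ∀ n, a n ∈ K} = ⋂ n, (fun a : ℕ → D => a n) ⁻¹' K := by
    ext a
    simp
  rw [h]
  exact isClosed_iInter fun n => (isClosed_discrete K).preimage (continuous_apply n)

theorem an_ev (U : ℕ → Set D) : AnalyticSet {a : ℕ → D | ∀ k, ∀ᶠ n in atTop, a n ∈ U k} := by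
  have h : {a : ℕ → D | ∀ k, ∀ᶠ n in atTop, a n ∈ U k} =
      ⋂ k, ⋃ N, ⋂ n : Ici N, (fun a : ℕ → D => a n.1) ⁻¹' U k := by
    ext a
    simp only [mem_ofPred_eq, eventually_atTop, mem_iInter, mem_iUnion, mem_preimage, Subtype.forall,
      mem_Ici]
  have pX : PolishSpace (ℕ → D) := { }
  rw [h]
  refine AnalyticSet.iInter fun k => AnalyticSet.iUnion fun N => ?_
  apply IsClosed.analyticSet
  exact isClosed_iInter fun n => (isClosed_discrete (U k)).preimage (continuous_apply _)

omit [Countable D] in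
theorem cont_of {f : (ℕ → ℕ) → ℕ → D} (hf : Continuous f) (w : ℕ → ℕ) (n : ℕ) :
    ∃ m, ∀ w' : ℕ → ℕ, (∀ k < m, w' k = w k) → f w' n = f w n := by
  have h1 : IsOpen {w' : ℕ → ℕ | f w' n = f w n} :=
    (isOpen_discrete ({f w n} : Set D)).preimage ((continuous_apply n).comp hf)
  obtain ⟨s, ⟨x, m, rfl⟩, hs1, hs2⟩ :=
    (PiNat.isTopologicalBasis_cylinders (fun _ : ℕ => ℕ)).exists_subset_of_mem_open
      (show w ∈ {w' : ℕ → ℕ | f w' n = f w n} from rfl) h1
  refine ⟨m, fun w' hw' => hs2 ?_⟩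
  intro k hk
  rw [hw' k hk]
  exact hs1 k hk

end

theorem an_disc {D : Type*} [TopologicalSpace D] [DiscreteTopology D] [Countable D] (K : ℕ → Set D)
    (W : ℕ → ℕ → Set D) : AnalyticSet (⋃ m, ({a : ℕ → D | ∀ n, a n ∈ K m} ∩
      {a : ℕ → D | ∀ k, ∀ᶠ n in atTop, a n ∈ W m k})) := by
  refine AnalyticSet.iUnion fun m => ?_
  rw [inter_eq_iInter]
  refine AnalyticSet.iInter fun b => ?_
  cases b
  · exact an_ev _
  · exact an_all _

/-- the set of the sequences converging to `1` -/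
def Null (G : Type) [Group G] [TopologicalSpace G] : Set (ℕ → G) := {a | Tendsto a atTop (𝓝 1)}

/-- analytic for the discrete topology of `G` -/
def An {G : Type} (𝒜 : Set (ℕ → G)) : Prop :=
  @AnalyticSet (ℕ → G) (@Pi.topologicalSpace ℕ (fun _ => G) (fun _ => ⊥)) 𝒜

theorem an_kk {G : Type} [Countable G] (K : ℕ → Set G) (W : ℕ → ℕ → Set G) :
    An (⋃ m, ({a : ℕ → G | ∀ n, a n ∈ K m} ∩ {a : ℕ → G | ∀ k, ∀ᶠ n in atTop, a n ∈ W m k})) :=
  @an_disc G ⊥ (@DiscreteTopology.mk G ⊥ rfl) _ K W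

theorem null_met {G : Type} [Group G] [TopologicalSpace G] [Countable G]
    [TopologicalSpace.MetrizableSpace G] : An (Null G) := by
  obtain ⟨U, hU⟩ := (𝓝 (1 : G)).exists_antitone_basis
  have h1 : Null G = {a : ℕ → G | ∀ k, ∀ᶠ n in atTop, a n ∈ U k} := by
    ext a
    constructor
    · intro h k
      exact h.eventually (hU.mem k)
    · intro h
      exact hU.toHasBasis.tendsto_right_iff.2 fun k _ => h k
  rw [h1]
  exact @an_ev G ⊥ (@DiscreteTopology.mk G ⊥ rfl) _ U

theorem null_kom {G : Type} [Group G] [TopologicalSpace G] [Countable G] [T2Space G]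
    (h : IsKOmega G) : An (Null G) := by
  obtain ⟨K, hK, -, -, hseq⟩ := k_seq h
  choose O hO1 hO2 using fun n => cp_ct (hK n)
  have h1 : Null G = ⋃ m, ({a : ℕ → G | ∀ n, a n ∈ K m} ∩
      {a : ℕ → G | ∀ k, ∀ᶠ n in atTop, a n ∈ {x | 1 ∈ K m ∧ (1 ∈ O m k → x ∈ O m k)}}) := by
    ext a
    simp only [mem_iUnion, mem_inter_iff, mem_ofPred_eq]
    constructor
    · intro ha
      obtain ⟨m, hm⟩ := hseq a 1 ha
      have h2 : (1 : G) ∈ K m :=
        (hK m).isClosed.mem_of_tendsto ha (Eventually.of_forall hm)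
      refine ⟨m, hm, fun k => ?_⟩
      by_cases h3 : (1 : G) ∈ O m k
      · exact (ha.eventually ((hO1 m k).mem_nhds h3)).mono fun n hn => ⟨h2, fun _ => hn⟩
      · exact Eventually.of_forall fun n => ⟨h2, fun h4 => (h3 h4).elim⟩
    · rintro ⟨m, hm, hk⟩
      have h2 : (1 : G) ∈ K m := ((hk 0).exists).choose_spec.1
      refine tendsto_nhds.2 fun A hA h1A => ?_
      obtain ⟨k, hk1, hk2⟩ := hO2 m A hA 1 ⟨h1A, h2⟩
      filter_upwards [hk k] with n hn
      exact hk2 ⟨hn.2 hk1, hm n⟩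
  rw [h1]
  exact an_kk K fun m k => {x | 1 ∈ K m ∧ (1 ∈ O m k → x ∈ O m k)}

end Pool.Agent.CSD
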