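import Pool.Agent.CSD.Dich
import Pool.Agent.CSD.Seq
import Pool.Agent.ASG.Main

set_option autoImplicit false

/-!
# Countable groups whose topology is determined by an analytic family of sequences (project CSD, MP_a9e3cf_lc)
-/

namespace Pool.Agent.CSD

open Set Topology Filter MeasureTheory
open Pool.Agent.ASG (IsKOmega NotC CD Net Fan Big ConvTo comp kom mk_fan s_one s_two f_one f_two)

private theorem mk_net {G : Type*} [Group G] [TopologicalSpace G] {V : ℕ → Set G}
    (hV : ∀ i, NotC (V i)) (hO : ∀ O : Set G, IsOpen O → 1 ∈ O → ∃ i, V i ⊆ id ⁻¹' O) :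
    ∃ h : ℕ → ℕ → G, Net h := by
  choose D hDV hDi hDc using hV
  refine ⟨fun n m => ((hDi n).natEmbedding (D n) m : G), fun n => ?_, fun n z => ?_, ?_⟩
  · exact Subtype.val_injective.comp ((hDi n).natEmbedding (D n)).injective
  · obtain ⟨U, hU, hf⟩ := hDc n z
    refine ⟨U, hU, hf.subset ?_⟩
    rintro _ ⟨hx, m, rfl⟩
    exact ⟨hx, ((hDi n).natEmbedding (D n) m).2⟩
  · intro O hOo h1
    obtain ⟨n, hn⟩ := hO O hOo h1
    exact ⟨n, fun m => hn (hDV n ((hDi n).natEmbedding (D n) m).2)⟩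

theorem seq_of_det {G : Type*} [Group G] [TopologicalSpace G] [IsTopologicalGroup G]
    {𝒜 : Set (ℕ → G)} (hlim : ∀ a ∈ 𝒜, Tendsto a atTop (𝓝 1))
    (hdet : ∀ U : Set G, (∀ x ∈ U, ∀ a ∈ 𝒜, ∀ᶠ n in atTop, x * a n ∈ U) → IsOpen U) :
    SequentialSpace G := by
  refine ⟨fun A hA => ?_⟩
  rw [← isOpen_compl_iff]
  apply hdet
  intro x hx a ha
  by_contra hcon
  rw [not_eventually] at hcon
  have hfr : ∃ᶠ n in atTop, x * a n ∈ A := hcon.mono fun n hn => not_not.1 hn
  obtain ⟨φ, hφ, hφA⟩ := extraction_of_frequently_atTop hfr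
  have hxt : Tendsto (fun n => x * a n) atTop (𝓝 x) := by
    have h5 : Tendsto (fun n => x * a n) atTop (𝓝 (x * 1)) := (hlim a ha).const_mul x
    rwa [mul_one] at h5
  exact hx (hA hφA (hxt.comp hφ.tendsto_atTop))

theorem forward {G : Type} [Group G] [TopologicalSpace G] [IsTopologicalGroup G] [T2Space G]
    [Countable G] {f : (ℕ → ℕ) → ℕ → G} (hf : Cont f) (hlim : ∀ w, Tendsto (f w) atTop (𝓝 1))
    (hdet : ∀ U : Set G, (∀ x ∈ U, ∀ w, ∀ᶠ n in atTop, x * f w n ∈ U) → IsOpen U) :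
    IsKOmega G ∨ TopologicalSpace.MetrizableSpace G := by
  have hseq : SequentialSpace G := seq_of_det (𝒜 := range f) (by rintro _ ⟨w, rfl⟩; exact hlim w)
    fun U hU => hdet U fun x hx w => hU x hx _ ⟨w, rfl⟩
  rcases dich_seq hf hlim hdet (id : G → G) 1 NotC with ⟨V, hV, hO⟩ | ⟨V, hV, hC⟩
  · obtain ⟨h, hh⟩ := mk_net hV hO
    by_cases hF : FrechetUrysohnSpace G
    · right
      by_cases hd : IsOpen ({1} : Set G)
      · have : DiscreteTopology G := discreteTopology_of_isOpen_singleton_one hd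
        infer_instance
      · rcases dich_seq hf hlim hdet (id : G → G) 1 (fun V => (interior (closure V)).Nonempty) with
          ⟨V', hV', hO'⟩ | ⟨V', hV', hC'⟩
        · exact f_one hV' hO'
        · exact (f_two hd (fun i => not_nonempty_iff_eq_empty.1 (hV' i)) hC').elim
    · exfalso
      obtain ⟨y, hy⟩ := mk_fan hF
      by_cases h1 : ∃ g : G, ∃ W : ℕ → Set (ℕ × ℕ × ℕ), (∀ i, Big (W i)) ∧
          ∀ O : Set G, IsOpen O → g ∈ O →
            ∃ i, W i ⊆ (fun t : ℕ × ℕ × ℕ => h t.1 t.2.1 * y t.1 t.2.2) ⁻¹' O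
      · obtain ⟨g, W, hW, hWO⟩ := h1
        exact s_one hy g hW hWO
      · have h2 : ∀ g : G, ∃ W : ℕ → Set (ℕ × ℕ × ℕ), (∀ i, ¬ Big (W i)) ∧
            ∀ C : Set (ℕ × ℕ × ℕ), ConvTo (fun t : ℕ × ℕ × ℕ => h t.1 t.2.1 * y t.1 t.2.2) C g →
              ∃ i, (C ∩ W i).Infinite := by
          intro g
          rcases dich_seq hf hlim hdet (fun t : ℕ × ℕ × ℕ => h t.1 t.2.1 * y t.1 t.2.2) g Big
            with h3 | h3
          · exact (h1 ⟨g, h3⟩).elim
          · exact h3
        choose B hB hBC using h2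
        obtain ⟨e, he⟩ := exists_surjective_nat (G × ℕ)
        refine s_two hh hy.lim (B := fun k => B (e k).1 (e k).2) (fun k => hB _ _) ?_
        intro g C hCg
        obtain ⟨i, hi⟩ := hBC g C hCg
        obtain ⟨k, hk⟩ := he (g, i)
        exact ⟨k, by simpa [hk] using hi⟩
  · left
    exact kom (fun i => comp (hV i)) hC

/-- the topology of `G` is determined by the sequences `a ∈ 𝒜`, which converge to `1` -/
def Det {G : Type} [Group G] [TopologicalSpace G] (𝒜 : Set (ℕ → G)) : Prop :=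
  (∀ a ∈ 𝒜, Tendsto a atTop (𝓝 1)) ∧
    ∀ U : Set G, (∀ x ∈ U, ∀ a ∈ 𝒜, ∀ᶠ n in atTop, x * a n ∈ U) → IsOpen U

theorem of_det {G : Type} [Group G] [TopologicalSpace G] [IsTopologicalGroup G] [T2Space G]
    [Countable G] {𝒜 : Set (ℕ → G)} (ha : An 𝒜) (hd : Det 𝒜) :
    IsKOmega G ∨ TopologicalSpace.MetrizableSpace G := by
  rcases Eq.mp (@AnalyticSet_def (ℕ → G) (@Pi.topologicalSpace ℕ (fun _ => G) (fun _ => ⊥)) 𝒜) ha
    with h0 | ⟨f, hf, hr⟩
  · right
    have : DiscreteTopology G := by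
      rw [discreteTopology_iff_forall_isOpen]
      intro U
      apply hd.2
      intro x _ a ha'
      rw [h0] at ha'
      exact ha'.elim
    infer_instance
  · have hc : Cont f := @cont_of G ⊥ (@DiscreteTopology.mk G ⊥ rfl) f hf
    have hm : ∀ w, f w ∈ 𝒜 := fun w => hr ▸ mem_range_self w
    exact forward hc (fun w => hd.1 _ (hm w)) fun U hU => hd.2 U fun x hx a ha' => by
      rw [← hr] at ha'
      obtain ⟨w, rfl⟩ := ha'
      exact hU x hx w

theorem det_null {G : Type} [Group G] [TopologicalSpace G] [IsTopologicalGroup G]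
    [SequentialSpace G] : Det (Null G) := by
  refine ⟨fun a ha => ha, fun U hU => ?_⟩
  rw [← isClosed_compl_iff]
  apply IsSeqClosed.isClosed
  intro y x hy hyx hx
  have h1 : Tendsto (fun n => x⁻¹ * y n) atTop (𝓝 1) := by
    have h5 : Tendsto (fun n => x⁻¹ * y n) atTop (𝓝 (x⁻¹ * x)) := hyx.const_mul x⁻¹
    rwa [inv_mul_cancel] at h5
  have h2 := hU x hx _ h1
  obtain ⟨n, hn⟩ := h2.exists
  apply hy n
  rwa [mul_inv_cancel_left] at hn

theorem an_top {G : Type} [TopologicalSpace G] :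
    AnalyticSet {φ : G → Bool | IsOpen {x | φ x = true}} ↔ Pool.Agent.ASG.IsAnalytic G := by
  constructor
  · intro h
    rw [AnalyticSet_def] at h
    rcases h with h0 | ⟨f, hf, hr⟩
    · exfalso
      have h1 : (fun _ : G => false) ∈ {φ : G → Bool | IsOpen {x | φ x = true}} := by simp
      rw [h0] at h1
      exact h1
    · exact ⟨f, hf, hr⟩
  · rintro ⟨f, hf, hr⟩
    rw [AnalyticSet_def]
    exact Or.inr ⟨f, hf, hr⟩

theorem main (G : Type) [Group G] [TopologicalSpace G] [IsTopologicalGroup G] [T2Space G]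
    [Countable G] :
    [(∃ 𝒜 : Set (ℕ → G), An 𝒜 ∧ Det 𝒜), SequentialSpace G ∧ An (Null G),
      SequentialSpace G ∧ AnalyticSet {φ : G → Bool | IsOpen {x | φ x = true}},
      IsKOmega G ∨ TopologicalSpace.MetrizableSpace G].TFAE := by
  have hs : IsKOmega G ∨ TopologicalSpace.MetrizableSpace G → SequentialSpace G := by
    rintro (h | h)
    · exact kom_seq h
    · infer_instance
  tfae_have 1 → 4 := by
    rintro ⟨𝒜, ha, hd⟩
    exact of_det ha hd
  tfae_have 4 → 2 := by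
    intro h
    refine ⟨hs h, ?_⟩
    rcases h with h | h
    · exact null_kom h
    · exact null_met
  tfae_have 2 → 1 := by
    rintro ⟨h1, h2⟩
    exact ⟨_, h2, det_null⟩
  tfae_have 4 → 3 := by
    intro h
    refine ⟨hs h, an_top.2 ?_⟩
    rcases h with h | h
    · exact Pool.Agent.ASG.an_kom h
    · exact Pool.Agent.ASG.an_met
  tfae_have 3 → 4 := by
    rintro ⟨h1, h2⟩
    exact Pool.Agent.ASG.forward (an_top.1 h2)
  tfae_finish

end Pool.Agent.CSD
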