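import Pool.Agent.ASG.Defs

set_option autoImplicit false

/-!
# Topologies of groups determined by analytic families of sequences: the dichotomy (project CSD, MP_a9e3cf_lc)

`f w`, `w` in the Baire space, are sequences converging to `1` which determine the topology of `G`; `f` is continuous for
the discrete topology of `G`. Let `P` be a family of subsets of `R` and `p : R → G`. Then there are countably many
members of `P` such that every neighbourhood of `g` contains the image of one of them, or there are countably many sets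
outside `P` such that every infinite set `C` with `p (C) → g` has an infinite intersection with one of them.
-/

namespace Pool.Agent.CSD

open Set Topology Filter
open Pool.Agent.ASG (ConvTo)

/-- the restriction of `w` to the first `n` arguments -/
def res (w : ℕ → ℕ) (n : ℕ) : List ℕ := (List.range n).map w

theorem res_length (w : ℕ → ℕ) (n : ℕ) : (res w n).length = n := by
  simp [res]

theorem res_take (w : ℕ → ℕ) {m n : ℕ} (h : m ≤ n) : (res w n).take m = res w m := by
  simp [res, ← List.map_take, List.take_range, Nat.min_eq_left h]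

theorem res_eq {w w' : ℕ → ℕ} {n : ℕ} (h : res w n = res w' n) : ∀ k < n, w k = w' k := by
  intro k hk
  have h1 := List.map_inj_left.1 h k (List.mem_range.2 hk)
  exact h1

/-- `f` is continuous from the Baire space to the space of sequences in the discrete space `G` -/
def Cont {G : Type*} (f : (ℕ → ℕ) → ℕ → G) : Prop :=
  ∀ w n, ∃ m, ∀ w' : ℕ → ℕ, (∀ k < m, w' k = w k) → f w' n = f w n

section

variable {G R : Type*} [Group G] (f : (ℕ → ℕ) → ℕ → G) (p : R → G) (g : G) (P : Set R → Prop)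

/-- the position `v'` extends the position `v` and forces that `p x` is a late term of the sequence `g * f w` -/
def Ext (v : List ℕ) (x : R) (v' : List ℕ) : Prop :=
  v.length < v'.length ∧ v'.take v.length = v ∧
    ∃ n, v.length ≤ n ∧ ∀ w, res w v'.length = v' → g * f w n = p x

/-- infinitely many points of `C` are mapped to terms of the sequence `g * f w` -/
def Tr (w : ℕ → ℕ) (C : Set R) : Prop :=
  ∀ N, {c | c ∈ C ∧ ∃ n, N ≤ n ∧ g * f w n = p c}.Infinite

/-- countably many sets outside `P` suffice for the sequences `f w`, `w` in the basic open set of `v` -/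
def Sm (v : List ℕ) : Prop :=
  ∃ 𝒮 : Set (Set R), 𝒮.Countable ∧ (∀ S ∈ 𝒮, ¬ P S) ∧
    ∀ w, res w v.length = v → ∀ C, Tr f p g w C → ∃ S ∈ 𝒮, (C ∩ S).Infinite

variable {f p g P}

theorem sm_step (hf : Cont f) (v : List ℕ)
    (h : ¬ P {x | ∃ v', Ext f p g v x v' ∧ ¬ Sm f p g P v'}) : Sm f p g P v := by
  classical
  have hch : ∀ v' : List ℕ, ∃ 𝒮 : Set (Set R), 𝒮.Countable ∧ (∀ S ∈ 𝒮, ¬ P S) ∧
      (Sm f p g P v' → ∀ w, res w v'.length = v' → ∀ C, Tr f p g w C →
        ∃ S ∈ 𝒮, (C ∩ S).Infinite) := by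
    intro v'
    by_cases hv : Sm f p g P v'
    · obtain ⟨𝒮, h1, h2, h3⟩ := hv
      exact ⟨𝒮, h1, h2, fun _ => h3⟩
    · exact ⟨∅, countable_empty, by simp, fun h' => (hv h').elim⟩
  choose 𝒮 h1 h2 h3 using hch
  refine ⟨insert {x | ∃ v', Ext f p g v x v' ∧ ¬ Sm f p g P v'} (⋃ v', 𝒮 v'),
    (countable_iUnion h1).insert _, ?_, ?_⟩
  · rintro S (rfl | hS)
    · exact h
    · obtain ⟨v', hv'⟩ := mem_iUnion.1 hS
      exact h2 v' S hv'
  · intro w hw C hC
    by_cases hI : (C ∩ {x | ∃ v', Ext f p g v x v' ∧ ¬ Sm f p g P v'}).Infinite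
    · exact ⟨_, mem_insert _ _, hI⟩
    rw [not_infinite] at hI
    obtain ⟨c, ⟨hcC, n, hn, hc⟩, hcZ⟩ := (hC v.length).exists_notMem_finite hI
    have hcZ' : ¬ ∃ v', Ext f p g v c v' ∧ ¬ Sm f p g P v' := fun h' => hcZ ⟨hcC, h'⟩
    obtain ⟨m, hm⟩ := hf w n
    have hext : Ext f p g v c (res w (max m (v.length + 1))) := by
      refine ⟨?_, ?_, n, hn, ?_⟩
      · rw [res_length]
        exact lt_of_lt_of_le (Nat.lt_succ_self _) (le_max_right _ _)
      · rw [res_take w (le_trans (Nat.le_succ _) (le_max_right _ _)), hw]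
      · intro w' hw'
        rw [res_length] at hw'
        have h4 := res_eq hw'
        rw [hm w' fun k hk => h4 k (lt_of_lt_of_le hk (le_max_left _ _)), hc]
    have hs : Sm f p g P (res w (max m (v.length + 1))) := by
      by_contra hs
      exact hcZ' ⟨_, hext, hs⟩
    obtain ⟨S, hS, hSi⟩ := h3 _ hs w (by rw [res_length]) C hC
    exact ⟨S, mem_insert_of_mem _ (mem_iUnion.2 ⟨_, hS⟩), hSi⟩

theorem chain [TopologicalSpace G] [IsTopologicalGroup G] (hlim : ∀ w, Tendsto (f w) atTop (𝓝 1))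
    {𝒱 : Set (List ℕ)} (h0 : [] ∈ 𝒱) {O : Set G} (hO : IsOpen O) (hg : g ∈ O)
    (h : ∀ v ∈ 𝒱, ∃ x v', v' ∈ 𝒱 ∧ Ext f p g v x v' ∧ p x ∉ O) : False := by
  choose! x nx h1 h2 h3 using h
  let u : ℕ → {v // v ∈ 𝒱} := fun i => Nat.rec ⟨[], h0⟩ (fun _ v => ⟨nx v.1, h1 v.1 v.2⟩) i
  let L : ℕ → List ℕ := fun i => (u i).1
  have hL : ∀ i, L (i + 1) = nx (L i) := fun i => rfl
  have hLV : ∀ i, L i ∈ 𝒱 := fun i => (u i).2
  have hlen : ∀ i, (L i).length < (L (i + 1)).length := fun i => by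
    rw [hL]
    exact (h2 _ (hLV i)).1
  have htk1 : ∀ i, (L (i + 1)).take (L i).length = L i := fun i => by
    rw [hL]
    exact (h2 _ (hLV i)).2.1
  have hle : ∀ i, i ≤ (L i).length := by
    intro i
    induction i with
    | zero => exact Nat.zero_le _
    | succ i ih => exact lt_of_le_of_lt ih (hlen i)
  have hmono : ∀ i j, i ≤ j → (L i).length ≤ (L j).length := by
    intro i j hij
    exact monotone_nat_of_le_succ (fun k => (hlen k).le) hij
  have htk : ∀ i j, i ≤ j → (L j).take (L i).length = L i := by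
    intro i j hij
    induction j, hij using Nat.le_induction with
    | base => simp
    | succ j hij ih =>
      have h5 := congrArg (List.take (L i).length) (htk1 j)
      rw [List.take_take, Nat.min_eq_left (hmono i j hij), ih] at h5
      exact h5
  have hget : ∀ i j k, i ≤ j → k < (L i).length → (L j).getD k 0 = (L i).getD k 0 := by
    intro i j k hij hk
    have h5 := htk i j hij
    rw [← h5]
    simp only [List.getD_eq_getElem?_getD, List.getElem?_take]
    rw [if_pos hk]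
  let w : ℕ → ℕ := fun k => (L (k + 1)).getD k 0
  have hw : ∀ i, res w (L i).length = L i := by
    intro i
    apply List.ext_getElem
    · rw [res_length]
    · intro k hk1 hk2
      have h5 : (res w (L i).length)[k] = w k := by
        simp [res]
      rw [h5]
      have h6 : (L i).getD k 0 = (L i)[k] := List.getD_eq_getElem _ _ hk2
      rw [← h6]
      show (L (k + 1)).getD k 0 = _
      rcases le_total i (k + 1) with h7 | h7
      · exact hget i (k + 1) k h7 hk2
      · exact (hget (k + 1) i k h7 (hle (k + 1))).symm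
  have hev : ∀ᶠ n in atTop, g * f w n ∈ O := by
    have h5 : Tendsto (fun n => g * f w n) atTop (𝓝 (g * 1)) := (hlim w).const_mul g
    rw [mul_one] at h5
    exact h5.eventually (hO.mem_nhds hg)
  obtain ⟨N, hN⟩ := eventually_atTop.1 hev
  obtain ⟨n, hn, hn2⟩ := (h2 _ (hLV N)).2.2
  have h6 := hN n (le_trans (hle N) hn)
  rw [hn2 w (by rw [← hL]; exact hw (N + 1))] at h6
  exact h3 _ (hLV N) h6

theorem track [TopologicalSpace G] [IsTopologicalGroup G] [T2Space G]
    (hlim : ∀ w, Tendsto (f w) atTop (𝓝 1))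
    (hdet : ∀ U : Set G, (∀ x ∈ U, ∀ w, ∀ᶠ n in atTop, x * f w n ∈ U) → IsOpen U)
    {C : Set R} (hC : ∀ O : Set G, IsOpen O → g ∈ O → (C \ p ⁻¹' O).Finite)
    (hi : (C \ p ⁻¹' {g}).Infinite) : ∃ w, Tr f p g w (C \ p ⁻¹' {g}) := by
  set A : Set G := p '' (C \ p ⁻¹' {g}) with hA
  have hgA : g ∉ A := by
    rintro ⟨c, hc, hcg⟩
    exact hc.2 hcg
  have hno : ¬ IsOpen Aᶜ := by
    intro ho
    apply hi
    refine (hC _ ho hgA).subset ?_
    intro c hc
    exact ⟨hc.1, fun h => h ⟨c, hc, rfl⟩⟩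
  obtain ⟨x, hx, w, hw⟩ : ∃ x ∈ Aᶜ, ∃ w, ¬ ∀ᶠ n in atTop, x * f w n ∈ Aᶜ := by
    by_contra hcon
    push Not at hcon
    exact hno (hdet _ fun x hx w => hcon x hx w)
  have hfr : ∃ᶠ n in atTop, x * f w n ∈ A := by
    rw [Filter.not_eventually] at hw
    exact hw.mono fun n hn => by_contra fun h => hn h
  have hxt : Tendsto (fun n => x * f w n) atTop (𝓝 x) := by
    have h5 : Tendsto (fun n => x * f w n) atTop (𝓝 (x * 1)) := (hlim w).const_mul x
    rwa [mul_one] at h5
  have hxg : x = g := by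
    by_contra hne
    obtain ⟨O', O, hO', hO, hxO', hgO, hd⟩ := t2_separation hne
    have hF : (p '' (C \ p ⁻¹' O)).Finite := (hC O hO hgO).image p
    have h6 : ∃ᶠ n in atTop, x * f w n ∈ p '' (C \ p ⁻¹' O) := by
      refine (hfr.and_eventually (hxt.eventually (hO'.mem_nhds hxO'))).mono ?_
      rintro n ⟨⟨c, hc, hcn⟩, hn⟩
      refine ⟨c, ⟨hc.1, fun h7 => ?_⟩, hcn⟩
      rw [← hcn] at hn
      exact disjoint_left.1 hd hn h7
    obtain ⟨c, hc, hcx⟩ := hF.isClosed.mem_of_frequently_of_tendsto h6 hxt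
    apply hx
    refine ⟨c, ⟨hc.1, fun h7 => ?_⟩, hcx⟩
    exact hne (hcx.symm.trans h7)
  subst hxg
  refine ⟨w, fun N hfin => ?_⟩
  have hF := hfin.image p
  have h6 : ∃ᶠ n in atTop, x * f w n ∈
      p '' {c | c ∈ C \ p ⁻¹' {x} ∧ ∃ n, N ≤ n ∧ x * f w n = p c} := by
    refine (hfr.and_eventually (eventually_ge_atTop N)).mono ?_
    rintro n ⟨⟨c, hc, hcn⟩, hn⟩
    exact ⟨c, ⟨hc, n, hn, hcn.symm⟩, hcn⟩
  obtain ⟨c, hc, hcx⟩ := hF.isClosed.mem_of_frequently_of_tendsto h6 hxt
  exact hc.1.2 hcx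

/-- the dichotomy -/
theorem dich_seq [TopologicalSpace G] [IsTopologicalGroup G] [T2Space G] (hf : Cont f)
    (hlim : ∀ w, Tendsto (f w) atTop (𝓝 1))
    (hdet : ∀ U : Set G, (∀ x ∈ U, ∀ w, ∀ᶠ n in atTop, x * f w n ∈ U) → IsOpen U)
    (p : R → G) (g : G) (P : Set R → Prop) :
    (∃ V : ℕ → Set R, (∀ i, P (V i)) ∧
      ∀ O : Set G, IsOpen O → g ∈ O → ∃ i, V i ⊆ p ⁻¹' O) ∨
    (∃ V : ℕ → Set R, (∀ i, ¬ P (V i)) ∧
      ∀ C : Set R, ConvTo p C g → ∃ i, (C ∩ V i).Infinite) := by
  classical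
  by_cases h0 : P (p ⁻¹' {g})
  · left
    exact ⟨fun _ => p ⁻¹' {g}, fun _ => h0, fun O _ hg => ⟨0, preimage_mono
      (singleton_subset_iff.2 hg)⟩⟩
  by_cases h1 : Sm f p g P []
  · right
    obtain ⟨𝒮, hc, hP, hS⟩ := h1
    obtain ⟨V, hV⟩ := (hc.insert (p ⁻¹' {g})).exists_eq_range (insert_nonempty _ _)
    refine ⟨V, fun i => ?_, fun C hC => ?_⟩
    · have h2 : V i ∈ insert (p ⁻¹' {g}) 𝒮 := hV ▸ mem_range_self i
      rcases h2 with h2 | h2
      · rw [h2]
        exact h0
      · exact hP _ h2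
    · by_cases h3 : (C ∩ p ⁻¹' {g}).Infinite
      · have h2 : p ⁻¹' {g} ∈ range V := hV ▸ mem_insert _ _
        obtain ⟨i, hi⟩ := h2
        exact ⟨i, by rw [hi]; exact h3⟩
      · have h4 : (C \ p ⁻¹' {g}).Infinite := by
          intro h5
          apply hC.1
          rw [← sdiff_union_inter C (p ⁻¹' {g})]
          exact h5.union (not_infinite.1 h3)
        obtain ⟨w, hw⟩ := track hlim hdet hC.2 h4
        obtain ⟨S, hSS, hSi⟩ := hS w (by simp [res]) _ hw
        have h2 : S ∈ range V := hV ▸ mem_insert_of_mem _ hSS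
        obtain ⟨i, hi⟩ := h2
        refine ⟨i, ?_⟩
        rw [hi]
        exact hSi.mono (inter_subset_inter_left _ sdiff_subset)
  · left
    have hZ : ∀ v, ¬ Sm f p g P v → P {x | ∃ v', Ext f p g v x v' ∧ ¬ Sm f p g P v'} := by
      intro v hv
      by_contra h2
      exact hv (sm_step hf v h2)
    have hcount : ((fun v => {x : R | ∃ v', Ext f p g v x v' ∧ ¬ Sm f p g P v'}) ''
        {v | ¬ Sm f p g P v}).Countable := (to_countable _).image _
    obtain ⟨V, hV⟩ := hcount.exists_eq_range ⟨_, [], h1, rfl⟩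
    refine ⟨V, fun i => ?_, fun O hO hg => ?_⟩
    · have h2 : V i ∈ (fun v => {x : R | ∃ v', Ext f p g v x v' ∧ ¬ Sm f p g P v'}) ''
          {v | ¬ Sm f p g P v} := hV ▸ mem_range_self i
      obtain ⟨v, hv, hvi⟩ := h2
      rw [← hvi]
      exact hZ v hv
    · by_contra hcon
      push Not at hcon
      refine chain hlim (𝒱 := {v | ¬ Sm f p g P v}) (p := p) h1 hO hg ?_
      intro v hv
      have h2 : {x | ∃ v', Ext f p g v x v' ∧ ¬ Sm f p g P v'} ∈ range V :=
        hV ▸ ⟨v, hv, rfl⟩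
      obtain ⟨i, hi⟩ := h2
      have h3 := hcon i
      rw [hi, not_subset] at h3
      obtain ⟨x, ⟨v', hv', hv2⟩, hx⟩ := h3
      exact ⟨x, v', hv2, hv', hx⟩

end

end Pool.Agent.CSD
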